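import Pool.Agent.Helper20.EP.Spec1
import Pool.Agent.Helper20.EP.Spec3

/-!
# EP, part ALPHA: equidistribution of `f(n) / m`
-/

set_option autoImplicit false

open Finset

namespace Pool.Agent.Helper51.EP.ALPHA

open Pool.Agent.Helper20.EP

theorem main (hE : S_EXPS) (hQ : S_EQ) : S_ALPHA := by
  intro D hD
  obtain ⟨c₀, M₀, hc₀, hc₁, hE⟩ := hE D hD
  obtain ⟨C, hC⟩ := hQ
  set C' : ℝ := max C 1 with hC'
  have hC'1 : 1 ≤ C' := le_max_right _ _
  refine ⟨c₀ / 16, max M₀ (max 1 ((4 * C' + 4) ^ (16 / c₀))), by positivity, by linarith, ?_⟩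
  intro f N q F T M hf hN hDat hM m a L hm hmM haL u v huv hvu
  have hM0 : M₀ ≤ M := (le_max_left _ _).trans hM
  have hM1 : 1 ≤ M := ((le_max_left _ _).trans (le_max_right _ _)).trans hM
  have hM2 : (4 * C' + 4) ^ (16 / c₀) ≤ M := ((le_max_right _ _).trans (le_max_right _ _)).trans hM
  have hMpos : 0 < M := by linarith
  set w : ℝ := M ^ (c₀ / 16) with hw
  have hw1 : 4 * C' + 4 ≤ w := by
    have h1 := Real.rpow_le_rpow (by positivity) hM2 (by positivity : 0 ≤ c₀ / 16)
    rw [← Real.rpow_mul (by positivity)] at h1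
    have h2 : 16 / c₀ * (c₀ / 16) = 1 := by field_simp
    rw [h2, Real.rpow_one] at h1
    exact h1
  have hwpos : 0 < w := by linarith
  have hw8 : 1 ≤ w := by linarith
  have hw16 : M ^ c₀ = w ^ 16 := by
    rw [hw, ← Real.rpow_natCast, ← Real.rpow_mul hMpos.le]
    congr 1
    push_cast
    ring
  have hwneg : M ^ (-(c₀ / 16)) = 1 / w := by
    rw [Real.rpow_neg hMpos.le, one_div]
  have hwneg' : M ^ (-c₀) = 1 / w ^ 16 := by
    rw [Real.rpow_neg hMpos.le, one_div, hw16]
  rw [hwneg]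
  have hN' : (1 : ℝ) ≤ N := by exact_mod_cast hN
  have hL2 : (L : ℝ) ≤ 2 * N := by
    have h1 : (a : ℝ) + L ≤ N + 1 := by exact_mod_cast haL
    have h2 : (0 : ℝ) ≤ a := Nat.cast_nonneg a
    linarith
  have hLnn : (0 : ℝ) ≤ L := Nat.cast_nonneg L
  set cn : ℝ := (((range L).filter fun n =>
          Int.fract (f.eval ((a + n : ℕ) : ℝ) / m - u) < v - u).card : ℝ) with hcn
  by_cases hcase : (L : ℝ) ≤ N * (1 / w)
  · -- trivial
    have h1 : cn ≤ L := by
      have : ((range L).filter fun n =>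
          Int.fract (f.eval ((a + n : ℕ) : ℝ) / m - u) < v - u).card ≤ (range L).card :=
        Finset.card_le_card (Finset.filter_subset _ _)
      rw [Finset.card_range] at this
      rw [hcn]
      exact_mod_cast this
    have h0 : 0 ≤ cn := Nat.cast_nonneg _
    have h2 : 0 ≤ (v - u) * L := mul_nonneg (by linarith) hLnn
    have h3 : (v - u) * L ≤ 1 * L := mul_le_mul_of_nonneg_right (by linarith) hLnn
    have h4 : |cn - (v - u) * L| ≤ L := by
      rw [abs_le]
      constructor <;> linarith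
    exact h4.trans hcase
  · push Not at hcase
    set H : ℕ := ⌊w ^ 4⌋₊ with hH
    have hHle : (H : ℝ) ≤ w ^ 4 := Nat.floor_le (by positivity)
    have hHlt : w ^ 4 < H + 1 := Nat.lt_floor_add_one _
    have hw4 : 8 ≤ w ^ 4 := by
      have : (8 : ℝ) ^ 4 ≤ w ^ 4 := pow_le_pow_left₀ (by norm_num) (by linarith) 4
      linarith [this, (by norm_num : (8 : ℝ) ≤ 8 ^ 4)]
    have hHge : w ^ 4 / 4 ≤ H := by linarith
    have hH1 : 1 ≤ H := by
      have : (1 : ℝ) ≤ H := by linarith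
      exact_mod_cast this
    have hHpos : (0 : ℝ) < H := by linarith
    have hH8 : (H : ℝ) ^ 2 ≤ w ^ 8 := by
      have := pow_le_pow_left₀ hHpos.le hHle 2
      calc (H : ℝ) ^ 2 ≤ (w ^ 4) ^ 2 := this
        _ = w ^ 8 := by ring
    have hwm : ∀ i j : ℕ, i ≤ j → w ^ i ≤ w ^ j := fun i j hij => pow_le_pow_right₀ hw8 hij
    have hsum : ∀ h : ℕ, 1 ≤ h → h ≤ H ^ 2 →
        ‖∑ n ∈ range L, ee (h * (f.eval ((a + n : ℕ) : ℝ) / m))‖ ≤ (L : ℝ) / H ^ 2 := by
      intro h h1 h2
      have h3 : (h : ℝ) ≤ (H : ℝ) ^ 2 := by exact_mod_cast h2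
      have h4 : (h : ℝ) ≤ M ^ c₀ := by
        rw [hw16]
        exact h3.trans (hH8.trans (hwm 8 16 (by norm_num)))
      have h5 : (m : ℝ) ≤ M ^ c₀ := by
        rw [hw16]
        have := hwm 1 16 (by norm_num)
        rw [pow_one] at this
        exact hmM.trans this
      refine (hE f N q F T M hf hN hDat hM0 h m a L h1 h4 hm h5 haL).trans ?_
      rw [hwneg', le_div_iff₀ (by positivity)]
      have h6 : (N : ℝ) ≤ L * w := by
        rw [mul_one_div, div_lt_iff₀ hwpos] at hcase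
        exact hcase.le
      have h7 : (N : ℝ) * (1 / w ^ 16) * H ^ 2 ≤ (L * w) * (1 / w ^ 16) * w ^ 8 := by
        gcongr
      refine h7.trans ?_
      have h8 : (L * w) * (1 / w ^ 16) * w ^ 8 = L * (1 / w ^ 7) := by
        field_simp
      rw [h8]
      have h9 : 1 / w ^ 7 ≤ 1 := by
        rw [div_le_one (by positivity)]
        exact one_le_pow₀ hw8
      calc (L : ℝ) * (1 / w ^ 7) ≤ L * 1 := mul_le_mul_of_nonneg_left h9 hLnn
        _ = L := mul_one _
    have key := hC (fun n => f.eval ((a + n : ℕ) : ℝ) / m) L H hH1 hsum u v huv hvu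
    refine key.trans ?_
    have hsq : w ^ 2 / 2 ≤ Real.sqrt H := by
      apply Real.le_sqrt_of_sq_le
      calc (w ^ 2 / 2) ^ 2 = w ^ 4 / 4 := by ring
        _ ≤ (H : ℝ) := hHge
    have hsqpos : 0 < Real.sqrt H := Real.sqrt_pos.2 hHpos
    rw [div_le_iff₀ hsqpos]
    have e1 : C * L ≤ C' * (2 * N) := by
      calc C * L ≤ C' * L := mul_le_mul_of_nonneg_right (le_max_left _ _) hLnn
        _ ≤ C' * (2 * N) := mul_le_mul_of_nonneg_left hL2 (by linarith)
    have e2 : (N : ℝ) * (1 / w) * (w ^ 2 / 2) ≤ N * (1 / w) * Real.sqrt H :=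
      mul_le_mul_of_nonneg_left hsq (by positivity)
    have e3 : (N : ℝ) * (1 / w) * (w ^ 2 / 2) = N * w / 2 := by
      field_simp
    have e4 : C' * (2 * N) ≤ N * w / 2 := by
      have : 4 * C' * N ≤ w * N := mul_le_mul_of_nonneg_right (by linarith) (by linarith)
      linarith
    linarith

end Pool.Agent.Helper51.EP.ALPHA
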