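import Pool.Agent.Helper20.EP.Spec1

/-!
# EP, part CDF: from characteristic functions to distribution functions
-/

set_option autoImplicit false

open Filter Topology MeasureTheory ProbabilityTheory

namespace Pool.Agent.Helper51.EP.CDF

/-- The empirical measure of the row `N + 1`. -/
noncomputable def nu (x : ℕ → ℕ → ℝ) (N : ℕ) : Measure ℝ :=
  ∑ n ∈ Finset.Icc 1 (N + 1), (((N + 1 : ℕ) : ENNReal)⁻¹) • Measure.dirac (x (N + 1) n)

theorem nu_apply (x : ℕ → ℕ → ℝ) (N : ℕ) (S : Set ℝ) (hS : MeasurableSet S)
    [DecidablePred fun n => x (N + 1) n ∈ S] :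
    nu x N S = (((Finset.Icc 1 (N + 1)).filter fun n => x (N + 1) n ∈ S).card : ENNReal) *
      ((N + 1 : ℕ) : ENNReal)⁻¹ := by
  unfold nu
  rw [Measure.finsetSum_apply]
  simp only [Measure.smul_apply, Measure.dirac_apply' _ hS, smul_eq_mul]
  rw [← Finset.mul_sum, mul_comm]
  congr 1
  simp only [Set.indicator, Pi.one_apply]
  rw [Finset.sum_boole]

instance (x : ℕ → ℕ → ℝ) (N : ℕ) : IsProbabilityMeasure (nu x N) := by
  constructor
  classical
  rw [nu_apply x N Set.univ MeasurableSet.univ]
  simp only [Set.mem_univ, Finset.filter_true, Nat.card_Icc]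
  rw [Nat.add_sub_cancel]
  exact ENNReal.mul_inv_cancel (by simp) (by simp)

theorem nu_charFun (x : ℕ → ℕ → ℝ) (N : ℕ) (t : ℝ) : charFun (nu x N) t =
    (∑ n ∈ Finset.Icc 1 (N + 1), Complex.exp (t * Complex.I * (x (N + 1) n : ℝ))) /
      ((N + 1 : ℕ) : ℂ) := by
  rw [charFun_apply_real]
  unfold nu
  rw [integral_finsetSum_measure]
  · simp only [integral_smul_measure, integral_dirac]
    rw [div_eq_inv_mul, Finset.mul_sum]
    refine Finset.sum_congr rfl fun n _ => ?_
    rw [ENNReal.toReal_inv, ENNReal.toReal_natCast]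
    rw [Complex.real_smul, Complex.ofReal_inv, Complex.ofReal_natCast]
    congr 2
    ring
  · intro n _
    apply Integrable.smul_measure
    · exact integrable_dirac (by simp)
    · simp

/-- The empirical measure as a probability measure. -/
noncomputable def pm (x : ℕ → ℕ → ℝ) (N : ℕ) : ProbabilityMeasure ℝ := ⟨nu x N, inferInstance⟩

/-- The standard normal law. -/
noncomputable def pg : ProbabilityMeasure ℝ := ⟨gaussianReal 0 1, inferInstance⟩

theorem main : Pool.Agent.Helper20.EP.S_CDF := by
  intro x hx t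
  have h1 : Tendsto (fun N => pm x N) atTop (𝓝 pg) := by
    rw [ProbabilityMeasure.tendsto_iff_tendsto_charFun]
    intro s
    have h2 := (tendsto_add_atTop_iff_nat 1).2 (hx s)
    have h3 : charFun (gaussianReal 0 1) s = Complex.exp (-(s : ℂ) ^ 2 / 2) := by
      rw [charFun_gaussianReal]
      congr 1
      simp
      ring
    show Tendsto (fun N => charFun (nu x N) s) atTop (𝓝 (charFun (gaussianReal 0 1) s))
    rw [h3]
    refine h2.congr fun N => ?_
    rw [nu_charFun]
  have h4 := ProbabilityMeasure.tendsto_measure_of_null_frontier_of_tendsto' (E := Set.Iic t) h1 (by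
    show gaussianReal 0 1 (frontier (Set.Iic t)) = 0
    rw [frontier_Iic]
    have := nullSingletonClass_gaussianReal (μ := 0) (v := 1) one_ne_zero
    exact measure_singleton t)
  rw [← tendsto_add_atTop_iff_nat 1]
  have h5 := (ENNReal.tendsto_toReal (measure_ne_top (gaussianReal 0 1) (Set.Iic t))).comp h4
  refine h5.congr fun N => ?_
  show (nu x N (Set.Iic t)).toReal = _
  classical
  rw [nu_apply x N _ measurableSet_Iic, ENNReal.toReal_mul, ENNReal.toReal_inv,
    ENNReal.toReal_natCast, ENNReal.toReal_natCast, div_eq_mul_inv]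
  simp only [Set.mem_Iic]

end Pool.Agent.Helper51.EP.CDF
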