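import Pool.Agent.Helper20.EP.Spec1

/-!
# EP, part EQ: small exponential sums imply equidistribution in intervals
-/

set_option autoImplicit false

open Finset

namespace Pool.Agent.Helper51.EP.EQ

open Pool.Agent.Helper20.EP

theorem ee_def (x : ℝ) : ee x = Complex.exp (Complex.I * ((2 * Real.pi * x : ℝ) : ℂ)) := by
  unfold ee
  congr 1
  push_cast
  ring

theorem ee_add (x y : ℝ) : ee (x + y) = ee x * ee y := by
  unfold ee
  rw [← Complex.exp_add]
  congr 1
  push_cast
  ring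

theorem ee_zero : ee 0 = 1 := by
  unfold ee
  simp

theorem ee_int (n : ℤ) : ee n = 1 := by
  unfold ee
  rw [Complex.exp_eq_one_iff]
  exact ⟨n, by push_cast; ring⟩

theorem ee_eq_one {x : ℝ} (h : ee x = 1) : ∃ n : ℤ, x = n := by
  unfold ee at h
  rw [Complex.exp_eq_one_iff] at h
  obtain ⟨n, hn⟩ := h
  refine ⟨n, ?_⟩
  have h2 : (2 * Real.pi * Complex.I : ℂ) ≠ 0 := Complex.two_pi_I_ne_zero
  have h3 : ((x : ℂ) - n) * (2 * Real.pi * Complex.I) = 0 := by
    linear_combination hn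
  have h4 : (x : ℂ) - n = 0 := (mul_eq_zero.1 h3).resolve_right h2
  have h5 : ((x - n : ℝ) : ℂ) = 0 := by
    push_cast
    exact h4
  have h6 : x - n = 0 := Complex.ofReal_eq_zero.1 h5
  linarith

theorem norm_ee (x : ℝ) : ‖ee x‖ = 1 := by
  rw [ee_def, mul_comm]
  exact Complex.norm_exp_ofReal_mul_I _

theorem conj_ee (x : ℝ) : (starRingEnd ℂ) (ee x) = ee (-x) := by
  unfold ee
  rw [← Complex.exp_conj]
  congr 1
  have h2 : (starRingEnd ℂ) 2 = 2 := map_ofNat _ 2
  simp [h2]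

theorem ee_add_int (x : ℝ) (n : ℤ) : ee (x + n) = ee x := by
  rw [ee_add, ee_int, mul_one]

theorem ee_natMul (j : ℕ) (x : ℝ) : ee (j * x) = ee x ^ j := by
  induction j with
  | zero => simp [ee_zero]
  | succ j ih =>
    have : ((j + 1 : ℕ) : ℝ) * x = j * x + x := by
      push_cast
      ring
    rw [this, ee_add, ih, pow_succ]

/-- Orthogonality. -/
theorem orth (M : ℕ) (hM : 0 < M) (m : ℤ) (h : ¬ (M : ℤ) ∣ m) :
    ∑ k ∈ range M, ee (m * ((k : ℝ) / M)) = 0 := by
  have hM' : (M : ℝ) ≠ 0 := Nat.cast_ne_zero.2 hM.ne'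
  have h1 : ∀ k : ℕ, ee (m * ((k : ℝ) / M)) = ee (m / M) ^ k := by
    intro k
    rw [← ee_natMul]
    congr 1
    ring
  simp only [h1]
  have h2 : ee (m / M) ≠ 1 := by
    intro hh
    obtain ⟨n, hn⟩ := ee_eq_one hh
    apply h
    rw [div_eq_iff hM'] at hn
    refine ⟨n, ?_⟩
    have : (m : ℝ) = ((M * n : ℤ) : ℝ) := by
      rw [hn]
      push_cast
      ring
    exact_mod_cast this
  rw [geom_sum_eq h2]
  have h3 : ee (m / M) ^ M = 1 := by
    rw [← ee_natMul, mul_div_cancel₀ _ hM']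
    exact ee_int m
  rw [h3, sub_self, zero_div]

/-- The exponential sum of length `M`. -/
noncomputable def W (M : ℕ) (θ : ℝ) : ℂ := ∑ j ∈ range M, ee (j * θ)

/-- The square of its absolute value as a double sum. -/
theorem normSq_W (M : ℕ) (θ : ℝ) : ((Complex.normSq (W M θ) : ℝ) : ℂ) =
    ∑ j ∈ range M, ∑ l ∈ range M, ee (((j : ℤ) - (l : ℤ) : ℤ) * θ) := by
  rw [← Complex.mul_conj]
  unfold W
  rw [map_sum, Finset.sum_mul_sum]
  refine Finset.sum_congr rfl fun j _ => Finset.sum_congr rfl fun l _ => ?_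
  rw [conj_ee, ← ee_add]
  congr 1
  push_cast
  ring

/-- The values on the shifted grid add up to `M ^ 2`. -/
theorem sum_W (M : ℕ) (hM : 0 < M) (y : ℝ) :
    ∑ k ∈ range M, Complex.normSq (W M (y - k / M)) = (M : ℝ) ^ 2 := by
  have h : ((∑ k ∈ range M, Complex.normSq (W M (y - k / M)) : ℝ) : ℂ) = ((M : ℝ) ^ 2 : ℝ) := by
    rw [Complex.ofReal_sum]
    simp only [normSq_W]
    rw [Finset.sum_comm]
    have h1 : ∀ j ∈ range M, ∑ k ∈ range M, ∑ l ∈ range M,
        ee (((j : ℤ) - (l : ℤ) : ℤ) * (y - k / M)) = (M : ℂ) := by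
      intro j hj
      rw [Finset.sum_comm, Finset.sum_eq_single j]
      · simp [ee_zero]
      · intro l hl hlj
        have h2 : ∀ k ∈ range M, ee (((j : ℤ) - (l : ℤ) : ℤ) * (y - k / M)) =
            ee (((j : ℤ) - (l : ℤ) : ℤ) * y) * ee (((l : ℤ) - (j : ℤ) : ℤ) * ((k : ℝ) / M)) := by
          intro k _
          rw [← ee_add]
          congr 1
          push_cast
          ring
        rw [Finset.sum_congr rfl h2, ← Finset.mul_sum, orth M hM, mul_zero]
        rintro ⟨c, hc⟩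
        rw [mem_range] at hj hl
        have h3 : (l : ℤ) - j < M := by omega
        have h4 : -(M : ℤ) < (l : ℤ) - j := by omega
        have h5 : (M : ℤ) * c < M * 1 := by rw [← hc]; omega
        have h6 : (M : ℤ) * (-1) < M * c := by rw [← hc]; omega
        have hMz : (0 : ℤ) < M := by exact_mod_cast hM
        have h7 : c < 1 := lt_of_mul_lt_mul_left h5 hMz.le
        have h8 : -1 < c := lt_of_mul_lt_mul_left h6 hMz.le
        have h9 : c = 0 := by omega
        rw [h9, mul_zero] at hc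
        apply hlj
        omega
      · intro hh
        exact absurd hj hh
    rw [Finset.sum_congr rfl h1]
    simp [sq]
  exact_mod_cast h

/-- Symmetry of the exponential sums. -/
theorem S_int (g : ℕ → ℝ) (N H : ℕ)
    (h : ∀ h : ℕ, 1 ≤ h → h ≤ H ^ 2 → ‖∑ n ∈ range N, ee (h * g n)‖ ≤ (N : ℝ) / H ^ 2)
    (m : ℤ) (hm : m ≠ 0) (hm2 : m.natAbs ≤ H ^ 2) :
    ‖∑ n ∈ range N, ee (m * g n)‖ ≤ (N : ℝ) / H ^ 2 := by
  have h1 : 1 ≤ m.natAbs := Nat.one_le_iff_ne_zero.2 (Int.natAbs_ne_zero.2 hm)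
  have h2 := h m.natAbs h1 hm2
  rcases Int.natAbs_eq m with h3 | h3
  · have h4 : (m : ℝ) = (m.natAbs : ℝ) := by
      rw [h3]
      simp
    rw [h4]
    exact h2
  · have h4 : (m : ℝ) = -(m.natAbs : ℝ) := by
      rw [h3]
      simp
    have h5 : ∑ n ∈ range N, ee (m * g n) =
        (starRingEnd ℂ) (∑ n ∈ range N, ee (m.natAbs * g n)) := by
      rw [map_sum]
      refine Finset.sum_congr rfl fun n _ => ?_
      rw [conj_ee, h4]
      congr 1
      ring
    rw [h5, Complex.norm_conj]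
    exact h2

/-- The sum of the kernel over the points. -/
theorem sum_point (g : ℕ → ℝ) (N H M : ℕ) (hMH : M ≤ H ^ 2)
    (h : ∀ h : ℕ, 1 ≤ h → h ≤ H ^ 2 → ‖∑ n ∈ range N, ee (h * g n)‖ ≤ (N : ℝ) / H ^ 2) (u : ℝ) :
    ∑ n ∈ range N, Complex.normSq (W M (g n - u)) ≤ M * N + M ^ 2 * ((N : ℝ) / H ^ 2) := by
  have h1 : ((∑ n ∈ range N, Complex.normSq (W M (g n - u)) : ℝ) : ℂ) =
      ∑ j ∈ range M, ∑ l ∈ range M, ee (((l : ℤ) - (j : ℤ) : ℤ) * u) *
        ∑ n ∈ range N, ee (((j : ℤ) - (l : ℤ) : ℤ) * g n) := by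
    rw [Complex.ofReal_sum]
    simp only [normSq_W]
    rw [Finset.sum_comm]
    refine Finset.sum_congr rfl fun j _ => ?_
    rw [Finset.sum_comm]
    refine Finset.sum_congr rfl fun l _ => ?_
    rw [Finset.mul_sum]
    refine Finset.sum_congr rfl fun n _ => ?_
    rw [← ee_add]
    congr 1
    push_cast
    ring
  have h2 : ‖((∑ n ∈ range N, Complex.normSq (W M (g n - u)) : ℝ) : ℂ)‖ ≤
      M * N + M ^ 2 * ((N : ℝ) / H ^ 2) := by
    rw [h1]
    have hb : ∀ j ∈ range M, ∀ l ∈ range M, ‖ee (((l : ℤ) - (j : ℤ) : ℤ) * u) *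
        ∑ n ∈ range N, ee (((j : ℤ) - (l : ℤ) : ℤ) * g n)‖ ≤
        (if l = j then (N : ℝ) else 0) + (N : ℝ) / H ^ 2 := by
      intro j hj l hl
      rw [norm_mul, norm_ee, one_mul]
      rw [mem_range] at hj hl
      have hpos : (0 : ℝ) ≤ (N : ℝ) / H ^ 2 := by positivity
      by_cases hjl : l = j
      · rw [if_pos hjl]
        have : ‖∑ n ∈ range N, ee (((j : ℤ) - (l : ℤ) : ℤ) * g n)‖ ≤ N := by
          refine (norm_sum_le _ _).trans ?_
          simp only [norm_ee]
          simp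
        linarith
      · rw [if_neg hjl, zero_add]
        refine S_int g N H h _ ?_ ?_
        · omega
        · omega
    refine (norm_sum_le _ _).trans ?_
    refine (Finset.sum_le_sum fun j hj => (norm_sum_le _ _).trans
      (Finset.sum_le_sum fun l hl => hb j hj l hl)).trans ?_
    have h3 : ∀ j ∈ range M, ∑ l ∈ range M, ((if l = j then (N : ℝ) else 0) + (N : ℝ) / H ^ 2) =
        N + M * ((N : ℝ) / H ^ 2) := by
      intro j hj
      rw [Finset.sum_add_distrib, Finset.sum_ite_eq', if_pos hj]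
      simp
    rw [Finset.sum_congr rfl h3]
    simp only [Finset.sum_const, Finset.card_range, nsmul_eq_mul]
    apply le_of_eq
    ring
  rw [Complex.norm_real] at h2
  exact (le_abs_self _).trans h2

/-- Away from the point the kernel is small. -/
theorem W_small (M : ℕ) (y : ℝ) (k : ℕ) (δ : ℝ) (hM : 0 < M) (hδ : 0 < δ)
    (h : 4 * δ ≤ ‖ee (y - k / M) - 1‖) :
    Complex.normSq (W M (y - k / M)) ≤ 1 / (4 * δ ^ 2) := by
  have hM' : (M : ℝ) ≠ 0 := Nat.cast_ne_zero.2 hM.ne'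
  set θ := y - k / M with hθ
  have h1 : W M θ * (ee θ - 1) = ee θ ^ M - 1 := by
    unfold W
    simp only [ee_natMul]
    exact geom_sum_mul (ee θ) M
  have h2 : ‖W M θ‖ * ‖ee θ - 1‖ ≤ 2 := by
    rw [← norm_mul, h1]
    refine (norm_sub_le _ _).trans ?_
    rw [norm_pow, norm_ee, one_pow, norm_one]
    norm_num
  have h3 : ‖W M θ‖ ≤ 1 / (2 * δ) := by
    have h4 : ‖W M θ‖ * (4 * δ) ≤ 2 :=
      (mul_le_mul_of_nonneg_left h (norm_nonneg _)).trans h2
    rw [le_div_iff₀ (by positivity)]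
    linarith
  rw [Complex.normSq_eq_norm_sq]
  calc ‖W M θ‖ ^ 2 ≤ (1 / (2 * δ)) ^ 2 := pow_le_pow_left₀ (norm_nonneg _) h3 2
    _ = 1 / (4 * δ ^ 2) := by
      field_simp
      ring

/-- The chord is at least four times the distance. -/
theorem chord (φ δ : ℝ) (h1 : δ ≤ φ) (h2 : φ ≤ 1 - δ) (hδ : 0 ≤ δ) : 4 * δ ≤ ‖ee φ - 1‖ := by
  rw [ee_def, Complex.norm_exp_I_mul_ofReal_sub_one]
  rw [Real.norm_eq_abs]
  have e1 : 2 * Real.pi * φ / 2 = Real.pi * φ := by ring
  rw [e1]
  have hpi := Real.pi_pos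
  have key : 2 * δ ≤ Real.sin (Real.pi * φ) := by
    by_cases h3 : φ ≤ 1 / 2
    · have h4 := Real.mul_le_sin (x := Real.pi * φ) (mul_nonneg hpi.le (hδ.trans h1)) (by nlinarith)
      have h5 : 2 / Real.pi * (Real.pi * φ) = 2 * φ := by
        field_simp
      rw [h5] at h4
      linarith
    · have h4 := Real.mul_le_sin (x := Real.pi * (1 - φ)) (by nlinarith) (by nlinarith)
      have h5 : 2 / Real.pi * (Real.pi * (1 - φ)) = 2 * (1 - φ) := by
        field_simp
      rw [h5] at h4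
      have h6 : Real.sin (Real.pi * (1 - φ)) = Real.sin (Real.pi * φ) := by
        have : Real.pi * (1 - φ) = Real.pi - Real.pi * φ := by ring
        rw [this, Real.sin_pi_sub]
      rw [h6] at h4
      linarith
  have h7 : 2 * Real.sin (Real.pi * φ) ≤ |2 * Real.sin (Real.pi * φ)| := le_abs_self _
  linarith

/-- The number of grid points in an interval. -/
theorem card_A (M : ℕ) (hM : 0 < M) (c L : ℝ) (hL : 0 ≤ L) :
    (((range M).filter fun k : ℕ => Int.fract ((k : ℝ) / M - c) < L).card : ℝ) ≤ M * L + 1 := by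
  have hM' : (0 : ℝ) < M := Nat.cast_pos.2 hM
  have h1 : ((range M).filter fun k : ℕ => Int.fract ((k : ℝ) / M - c) < L).card ≤
      (Finset.Ico ⌈(M : ℝ) * c⌉ ⌈(M : ℝ) * c + M * L⌉).card := by
    apply Finset.card_le_card_of_injOn (fun k : ℕ => (k : ℤ) - M * ⌊(k : ℝ) / M - c⌋)
    · intro k hk
      have hk' := (Finset.mem_filter.1 (Finset.mem_coe.1 hk)).2
      have e : (((k : ℤ) - M * ⌊(k : ℝ) / M - c⌋ : ℤ) : ℝ) =
          M * c + M * Int.fract ((k : ℝ) / M - c) := by
        unfold Int.fract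
        push_cast
        field_simp
        ring
      have h0 := Int.fract_nonneg ((k : ℝ) / M - c)
      apply Finset.mem_coe.2
      rw [Finset.mem_Ico]
      constructor
      · rw [Int.ceil_le, e]
        nlinarith
      · rw [Int.lt_ceil, e]
        nlinarith
    · intro k hk l hl hkl
      have hk' := Finset.mem_range.1 (Finset.mem_filter.1 (Finset.mem_coe.1 hk)).1
      have hl' := Finset.mem_range.1 (Finset.mem_filter.1 (Finset.mem_coe.1 hl)).1
      have hkl' : (k : ℤ) - M * ⌊(k : ℝ) / M - c⌋ = (l : ℤ) - M * ⌊(l : ℝ) / M - c⌋ := hkl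
      set u := ⌊(k : ℝ) / M - c⌋
      set v := ⌊(l : ℝ) / M - c⌋
      have h3 : (k : ℤ) - l = M * (u - v) := by linear_combination hkl'
      have hMz : (0 : ℤ) < M := by exact_mod_cast hM
      have h5 : (M : ℤ) * (u - v) < M * 1 := by rw [← h3]; omega
      have h6 : (M : ℤ) * (-1) < M * (u - v) := by rw [← h3]; omega
      have h7 : u - v < 1 := lt_of_mul_lt_mul_left h5 hMz.le
      have h8 : -1 < u - v := lt_of_mul_lt_mul_left h6 hMz.le
      have h9 : u - v = 0 := by omega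
      rw [h9, mul_zero] at h3
      omega
  rw [Int.card_Ico] at h1
  have h2 : (⌈(M : ℝ) * c + M * L⌉ : ℝ) < M * c + M * L + 1 := Int.ceil_lt_add_one _
  have h3 : (M : ℝ) * c ≤ ⌈(M : ℝ) * c⌉ := Int.le_ceil _
  have h4 : (((⌈(M : ℝ) * c + M * L⌉ - ⌈(M : ℝ) * c⌉).toNat : ℕ) : ℝ) ≤ M * L + 1 := by
    by_cases h5 : 0 ≤ ⌈(M : ℝ) * c + M * L⌉ - ⌈(M : ℝ) * c⌉
    · have h6 : (((⌈(M : ℝ) * c + M * L⌉ - ⌈(M : ℝ) * c⌉).toNat : ℕ) : ℝ) =
          (⌈(M : ℝ) * c + M * L⌉ : ℝ) - ⌈(M : ℝ) * c⌉ := by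
        have := Int.toNat_of_nonneg h5
        have h7 : ((((⌈(M : ℝ) * c + M * L⌉ - ⌈(M : ℝ) * c⌉).toNat : ℕ) : ℤ) : ℝ) =
            ((⌈(M : ℝ) * c + M * L⌉ - ⌈(M : ℝ) * c⌉ : ℤ) : ℝ) := by rw [this]
        push_cast at h7
        exact h7
      rw [h6]
      linarith
    · rw [Int.toNat_of_nonpos (by omega)]
      push_cast
      positivity
  exact (by exact_mod_cast h1 : (((range M).filter fun k : ℕ =>
    Int.fract ((k : ℝ) / M - c) < L).card : ℝ) ≤
    ((⌈(M : ℝ) * c + M * L⌉ - ⌈(M : ℝ) * c⌉).toNat : ℝ)).trans h4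

/-- The upper bound for short intervals. -/
theorem upper (g : ℕ → ℝ) (N H M : ℕ) (hM : 0 < M) (hMH : M ≤ H ^ 2)
    (h : ∀ h : ℕ, 1 ≤ h → h ≤ H ^ 2 → ‖∑ n ∈ range N, ee (h * g n)‖ ≤ (N : ℝ) / H ^ 2)
    (a b δ : ℝ) (hab : a ≤ b) (hδ : 0 < δ) :
    (((range N).filter fun n => Int.fract (g n - a) < b - a).card : ℝ) * M ^ 2 ≤
      (M * (b - a + 2 * δ) + 1) * (M * N) + M * (M ^ 2 * ((N : ℝ) / H ^ 2)) +
        N * (M * (1 / (4 * δ ^ 2))) := by
  have hM' : (0 : ℝ) < M := Nat.cast_pos.2 hM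
  set B := (range N).filter fun n => Int.fract (g n - a) < b - a with hB
  set A := (range M).filter fun k : ℕ => Int.fract ((k : ℝ) / M - (a - δ)) < b - a + 2 * δ with hA
  have hA1 : (A.card : ℝ) ≤ M * (b - a + 2 * δ) + 1 := card_A M hM (a - δ) _ (by linarith)
  have hA2 : (A.card : ℝ) ≤ M := by
    have : A.card ≤ (range M).card := Finset.card_le_card (Finset.filter_subset _ _)
    rw [Finset.card_range] at this
    exact_mod_cast this
  have hB2 : (B.card : ℝ) ≤ N := by
    have : B.card ≤ (range N).card := Finset.card_le_card (Finset.filter_subset _ _)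
    rw [Finset.card_range] at this
    exact_mod_cast this
  have hsmall : ∀ n ∈ B, ∀ k ∈ (range M).filter (fun k => k ∉ A),
      Complex.normSq (W M (g n - k / M)) ≤ 1 / (4 * δ ^ 2) := by
    intro n hn k hk
    rw [hB, Finset.mem_filter] at hn
    rw [Finset.mem_filter] at hk
    have hk2 : b - a + 2 * δ ≤ Int.fract ((k : ℝ) / M - (a - δ)) := by
      by_contra hcon
      push Not at hcon
      apply hk.2
      rw [hA, Finset.mem_filter]
      exact ⟨hk.1, hcon⟩
    apply W_small M (g n) k δ hM hδ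
    have e1 : g n - k / M = (Int.fract (g n - a) - Int.fract ((k : ℝ) / M - (a - δ)) + δ + 1) +
        ((⌊g n - a⌋ - ⌊(k : ℝ) / M - (a - δ)⌋ - 1 : ℤ) : ℝ) := by
      unfold Int.fract
      push_cast
      ring
    rw [e1, ee_add_int]
    have h0 := Int.fract_nonneg (g n - a)
    have h1 := Int.fract_lt_one ((k : ℝ) / M - (a - δ))
    exact chord _ δ (by linarith) (by linarith) hδ.le
  have hlow : ∀ n ∈ B, (M : ℝ) ^ 2 - M * (1 / (4 * δ ^ 2)) ≤
      ∑ k ∈ A, Complex.normSq (W M (g n - k / M)) := by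
    intro n hn
    have h1 := sum_W M hM (g n)
    have h2 : ∑ k ∈ range M, Complex.normSq (W M (g n - k / M)) =
        ∑ k ∈ A, Complex.normSq (W M (g n - k / M)) +
        ∑ k ∈ (range M).filter (fun k => k ∉ A), Complex.normSq (W M (g n - k / M)) := by
      rw [← Finset.sum_filter_add_sum_filter_not (range M) (fun k => k ∈ A)]
      congr 1
      apply Finset.sum_congr _ fun _ _ => rfl
      ext k
      rw [Finset.mem_filter]
      constructor
      · exact fun hh => hh.2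
      · exact fun hh => ⟨(Finset.mem_filter.1 hh).1, hh⟩
    have h3 : ∑ k ∈ (range M).filter (fun k => k ∉ A), Complex.normSq (W M (g n - k / M)) ≤
        M * (1 / (4 * δ ^ 2)) := by
      refine (Finset.sum_le_sum (hsmall n hn)).trans ?_
      rw [Finset.sum_const, nsmul_eq_mul]
      apply mul_le_mul_of_nonneg_right _ (by positivity)
      have : ((range M).filter (fun k => k ∉ A)).card ≤ (range M).card :=
        Finset.card_le_card (Finset.filter_subset _ _)
      rw [Finset.card_range] at this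
      exact_mod_cast this
    linarith
  have h4 : (B.card : ℝ) * ((M : ℝ) ^ 2 - M * (1 / (4 * δ ^ 2))) ≤
      ∑ n ∈ B, ∑ k ∈ A, Complex.normSq (W M (g n - k / M)) := by
    rw [← nsmul_eq_mul, ← Finset.sum_const]
    exact Finset.sum_le_sum hlow
  have h5 : ∑ n ∈ B, ∑ k ∈ A, Complex.normSq (W M (g n - k / M)) ≤
      ∑ n ∈ range N, ∑ k ∈ A, Complex.normSq (W M (g n - k / M)) := by
    apply Finset.sum_le_sum_of_subset_of_nonneg (Finset.filter_subset _ _)
    intro n _ _
    exact Finset.sum_nonneg fun k _ => Complex.normSq_nonneg _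
  have h6 : ∑ n ∈ range N, ∑ k ∈ A, Complex.normSq (W M (g n - k / M)) ≤
      A.card * (M * N + M ^ 2 * ((N : ℝ) / H ^ 2)) := by
    rw [Finset.sum_comm, ← nsmul_eq_mul, ← Finset.sum_const]
    exact Finset.sum_le_sum fun k _ => sum_point g N H M hMH h _
  have p1 : (0 : ℝ) ≤ M * N := by positivity
  have p2 : (0 : ℝ) ≤ (M : ℝ) ^ 2 * ((N : ℝ) / H ^ 2) := by positivity
  have p3 : (0 : ℝ) ≤ M * (1 / (4 * δ ^ 2)) := by positivity
  have q1 := mul_le_mul_of_nonneg_right hA1 p1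
  have q2 := mul_le_mul_of_nonneg_right hA2 p2
  have q3 := mul_le_mul_of_nonneg_right hB2 p3
  nlinarith

/-- The upper bound. -/
theorem upper' (g : ℕ → ℝ) (N H : ℕ) (hH : 1 ≤ H)
    (h : ∀ h : ℕ, 1 ≤ h → h ≤ H ^ 2 → ‖∑ n ∈ range N, ee (h * g n)‖ ≤ (N : ℝ) / H ^ 2)
    (a b : ℝ) (hab : a ≤ b) :
    (((range N).filter fun n => Int.fract (g n - a) < b - a).card : ℝ) ≤
      (b - a) * N + 5 * N / Real.sqrt H := by
  set r := Real.sqrt H with hr
  set s := Nat.sqrt H with hs
  have hH1 : (1 : ℝ) ≤ H := by exact_mod_cast hH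
  have hr1 : 1 ≤ r := by
    rw [hr]
    exact Real.one_le_sqrt.2 hH1
  have hr2 : r ^ 2 = H := Real.sq_sqrt (by linarith)
  have hs1 : 1 ≤ s := by
    rw [hs]
    exact Nat.sqrt_pos.2 (by omega)
  have hs2 : s ^ 2 ≤ H := by
    have := Nat.sqrt_le' H
    exact this
  have hs3 : H < (s + 1) ^ 2 := Nat.lt_succ_sqrt' H
  have hs1' : (1 : ℝ) ≤ s := by exact_mod_cast hs1
  have hs2' : (s : ℝ) ≤ r := by
    rw [hr]
    apply Real.le_sqrt_of_sq_le
    exact_mod_cast hs2
  have hs3' : r < 2 * s := by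
    have h1 : r < s + 1 := by
      rw [hr, Real.sqrt_lt' (by positivity)]
      exact_mod_cast hs3
    linarith
  have hM : 0 < H * s := Nat.mul_pos (by omega) (by omega)
  have hMH : H * s ≤ H ^ 2 := by
    have : s ≤ H := by nlinarith
    nlinarith
  have key := upper g N H (H * s) hM hMH h a b (1 / r) hab (by positivity)
  set B := (range N).filter fun n => Int.fract (g n - a) < b - a with hB
  have hN : (0 : ℝ) ≤ N := Nat.cast_nonneg N
  have hMr : ((H * s : ℕ) : ℝ) = r ^ 2 * s := by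
    push_cast
    rw [hr2]
  rw [hMr, ← hr2] at key
  have hpos : (0 : ℝ) < r ^ 2 * s := by positivity
  have hr0 : (0 : ℝ) < r := by linarith
  have e1 : (r ^ 2 * s * (b - a + 2 * (1 / r)) + 1) * (r ^ 2 * s * N) +
      r ^ 2 * s * ((r ^ 2 * s) ^ 2 * (N / (r ^ 2) ^ 2)) +
        N * (r ^ 2 * s * (1 / (4 * (1 / r) ^ 2))) =
      ((b - a) * N + N * (2 / r + 1 / (r ^ 2 * s) + s / r ^ 2 + 1 / (4 * s))) *
        (r ^ 2 * s) ^ 2 := by
    field_simp
    ring
  rw [e1] at key
  have key2 := le_of_mul_le_mul_right key (by positivity)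
  refine key2.trans ?_
  have f1 : 1 / (r ^ 2 * s) ≤ 1 / r := by
    apply one_div_le_one_div_of_le hr0
    nlinarith [mul_pos hr0 (by linarith : (0 : ℝ) < s)]
  have f2 : (s : ℝ) / r ^ 2 ≤ 1 / r := by
    rw [div_le_div_iff₀ (by positivity) hr0]
    nlinarith
  have f3 : 1 / (4 * (s : ℝ)) ≤ 1 / r := by
    apply one_div_le_one_div_of_le hr0
    linarith
  have f4 : 5 * N / r = N * (2 / r + 1 / r + 1 / r + 1 / r) := by
    field_simp
    ring
  rw [f4]
  have f5 : 2 / r + 1 / (r ^ 2 * s) + s / r ^ 2 + 1 / (4 * s) ≤ 2 / r + 1 / r + 1 / r + 1 / r := by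
    linarith
  have := mul_le_mul_of_nonneg_left f5 hN
  linarith

theorem compl_iff (y a b : ℝ) (hab : a ≤ b) (hb : b ≤ a + 1) :
    ¬ Int.fract (y - a) < b - a ↔ Int.fract (y - b) < a + 1 - b := by
  have h0 := Int.fract_nonneg (y - a)
  have h1 := Int.fract_lt_one (y - a)
  have e : y - b = (Int.fract (y - a) - (b - a)) + (⌊y - a⌋ : ℤ) := by
    unfold Int.fract
    ring
  constructor
  · intro h
    push Not at h
    rw [e, Int.fract_add_intCast, Int.fract_eq_self.2 ⟨by linarith, by linarith⟩]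
    linarith
  · intro h hcon
    have e2 : y - b = (Int.fract (y - a) - (b - a) + 1) + ((⌊y - a⌋ - 1 : ℤ) : ℝ) := by
      rw [e]
      push_cast
      ring
    rw [e2, Int.fract_add_intCast, Int.fract_eq_self.2 ⟨by linarith, by linarith⟩] at h
    linarith

theorem main : S_EQ := by
  refine ⟨5, ?_⟩
  intro g N H hH h a b hab hb
  have h1 := upper' g N H hH h a b hab
  have h2 := upper' g N H hH h b (a + 1) hb
  have h3 : (((range N).filter fun n => Int.fract (g n - a) < b - a).card : ℝ) +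
      (((range N).filter fun n => Int.fract (g n - b) < a + 1 - b).card : ℝ) = N := by
    have h4 : ((range N).filter fun n => Int.fract (g n - a) < b - a).card +
        ((range N).filter fun n => ¬ Int.fract (g n - a) < b - a).card = (range N).card :=
      Finset.card_filter_add_card_filter_not _
    simp only [compl_iff _ a b hab hb] at h4
    rw [Finset.card_range] at h4
    exact_mod_cast h4
  rw [abs_le]
  constructor
  · have : (a + 1 - b) * (N : ℝ) = N - (b - a) * N := by ring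
    rw [this] at h2
    linarith
  · linarith

end Pool.Agent.Helper51.EP.EQ
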