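import Pool.Agent.Helper20.EP.Spec1
import Pool.Agent.Helper20.EP.Spec3

/-!
# EP, part EXPS: exponential sums are small
-/

set_option autoImplicit false

open Polynomial Finset

namespace Pool.Agent.Helper51.EP.EXPS

open Pool.Agent.Helper20.EP

/-- The coefficients of a translated polynomial. -/
theorem taylor_coeff' (P : ℝ[X]) (D : ℕ) (hP : P.natDegree ≤ D) (r : ℝ) (j : ℕ) :
    (taylor r P).coeff j = ∑ i ∈ range (D + 1), P.coeff i * (r ^ (i - j) * (i.choose j : ℝ)) := by
  conv_lhs => rw [P.as_sum_range' (D + 1) (by omega)]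
  rw [map_sum, finsetSum_coeff]
  refine Finset.sum_congr rfl fun i _ => ?_
  rw [taylor_monomial, coeff_C_mul, coeff_X_add_C_pow]

theorem main (hW : S_WINV) : S_EXPS := by
  intro D hD
  obtain ⟨C, hW⟩ := hW D
  set E : ℕ := 1 + C + D with hE
  set C₁ : ℝ := (D + 1) * 2 ^ (C + D) with hC₁
  have hC₁1 : 1 ≤ C₁ := by
    rw [hC₁]
    have h1 : (1 : ℝ) ≤ (D : ℝ) + 1 := by
      have : (0 : ℝ) ≤ D := Nat.cast_nonneg D
      linarith
    have h2 : (1 : ℝ) ≤ 2 ^ (C + D) := one_le_pow₀ (by norm_num)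
    nlinarith
  have hE1 : (1 : ℝ) ≤ E := by
    have : 1 ≤ E := by omega
    exact_mod_cast this
  refine ⟨1 / (2 * E), max 1 (16 * C₁ ^ 2 + 1), by positivity, ?_, ?_⟩
  · rw [div_lt_one (by positivity)]
    linarith
  intro f N q F T M hf hN hDat hM h m a L hh hhM hm hmM haL
  have hM1 : 1 ≤ M := (le_max_left _ _).trans hM
  have hM2 : 16 * C₁ ^ 2 + 1 ≤ M := (le_max_right _ _).trans hM
  have hMpos : 0 < M := by linarith
  set w : ℝ := M ^ (1 / (2 * (E : ℝ))) with hw
  have hw1 : 1 ≤ w := Real.one_le_rpow hM1 (by positivity)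
  have hwpos : 0 < w := by linarith
  have hwE : (w ^ E) ^ 2 = M := by
    rw [hw, ← pow_mul, ← Real.rpow_natCast, ← Real.rpow_mul hMpos.le]
    have : 1 / (2 * (E : ℝ)) * ((E * 2 : ℕ) : ℝ) = 1 := by
      push_cast
      field_simp
    rw [this, Real.rpow_one]
  have hwneg : M ^ (-(1 / (2 * (E : ℝ)))) = 1 / w := by
    rw [Real.rpow_neg hMpos.le, ← hw, one_div]
  rw [hwneg]
  by_contra hcon
  push Not at hcon
  have hN' : (1 : ℝ) ≤ N := by exact_mod_cast hN
  have hNpos : (0 : ℝ) < N := by linarith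
  have hsumL : ‖∑ n ∈ range L, ee (h * (f.eval ((a + n : ℕ) : ℝ) / m))‖ ≤ L := by
    refine (norm_sum_le _ _).trans ?_
    have h1 : ∀ x : ℝ, ‖ee x‖ = 1 := by
      intro x
      have h2 : ee x = Complex.exp (((2 * Real.pi * x : ℝ) : ℂ) * Complex.I) := by
        unfold ee
        congr 1
        push_cast
        ring
      rw [h2]
      exact Complex.norm_exp_ofReal_mul_I _
    simp only [h1]
    simp
  have hLw : (N : ℝ) * (1 / w) < L := hcon.trans_le hsumL
  have hNL : (N : ℝ) < L * w := by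
    rw [mul_one_div, div_lt_iff₀ hwpos] at hLw
    exact hLw
  have hLpos : (0 : ℝ) < L := by
    have : 0 < (N : ℝ) * (1 / w) := by positivity
    linarith
  have hL1 : 1 ≤ L := by
    have : 0 < L := by exact_mod_cast hLpos
    omega
  have haN : (a : ℝ) ≤ N := by
    have : a ≤ N := by omega
    exact_mod_cast this
  have hL2 : (L : ℝ) ≤ 2 * N := by
    have : L ≤ N + 1 := by omega
    have h1 : (L : ℝ) ≤ N + 1 := by exact_mod_cast this
    linarith
  have hmpos : (0 : ℝ) < m := by exact_mod_cast hm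
  have hhpos : (0 : ℝ) < h := by exact_mod_cast hh
  -- the polynomial
  set P : ℝ[X] := taylor (a : ℝ) f with hP
  have hPdeg : P.natDegree ≤ D := by rw [hP, natDegree_taylor, hf]
  set g : ℝ[X] := Polynomial.C ((h : ℝ) / m) * P with hg
  have hgdeg : g.natDegree ≤ D := (natDegree_C_mul_le _ _).trans hPdeg
  have hgc : ∀ i, g.coeff i = (h : ℝ) / m * P.coeff i := fun i => by rw [hg, coeff_C_mul]
  have hge : ∀ n : ℕ, g.eval (n : ℝ) = h * (f.eval ((a + n : ℕ) : ℝ) / m) := by
    intro n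
    rw [hg, eval_mul, eval_C, hP, taylor_eval]
    push_cast
    rw [add_comm (n : ℝ) (a : ℝ)]
    ring
  obtain ⟨q', hq'1, hq'2, hb⟩ := hW g hgdeg L hL1 (2 * w) (by linarith) (by
    simp only [hge]
    refine le_trans ?_ hcon.le
    rw [mul_one_div, div_le_div_iff₀ (by positivity) hwpos]
    nlinarith)
  have hb' : ∀ i : ℕ, ∃ b : ℤ, 1 ≤ i → i ≤ D → |q' * g.coeff i - b| ≤ (2 * w) ^ C / (L : ℝ) ^ i := by
    intro i
    by_cases hi : 1 ≤ i ∧ i ≤ D
    · obtain ⟨b, hb⟩ := hb i hi.1 hi.2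
      exact ⟨b, fun _ _ => hb⟩
    · exact ⟨0, fun h1 h2 => absurd ⟨h1, h2⟩ hi⟩
  choose b hb using hb'
  have hq'pos : (0 : ℝ) < q' := by exact_mod_cast hq'1
  set B : ℕ → ℤ := fun j => ∑ i ∈ range (D + 1),
    (m : ℤ) * b i * ((-(a : ℤ)) ^ (i - j) * (i.choose j : ℤ)) with hB
  have hfP : taylor (-(a : ℝ)) P = f := by
    rw [hP, taylor_taylor, neg_add_cancel, taylor_zero]
  have hest : ∀ j : ℕ, 1 ≤ j → j ≤ D →
      |(q' * h : ℝ) * f.coeff j - B j| * (N : ℝ) ^ j ≤ C₁ * w ^ E := by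
    intro j hj1 hjD
    have h1 : f.coeff j = ∑ i ∈ range (D + 1), P.coeff i * ((-(a : ℝ)) ^ (i - j) *
        (i.choose j : ℝ)) := by
      rw [← taylor_coeff' P D hPdeg, hfP]
    have h2 : (q' * h : ℝ) * f.coeff j - B j = ∑ i ∈ range (D + 1),
        ((m : ℝ) * (q' * g.coeff i - b i)) * ((-(a : ℝ)) ^ (i - j) * (i.choose j : ℝ)) := by
      rw [h1, hB]
      push_cast
      rw [Finset.mul_sum, ← Finset.sum_sub_distrib]
      refine Finset.sum_congr rfl fun i _ => ?_
      rw [hgc]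
      field_simp
    rw [h2]
    have h3 : ∀ i ∈ range (D + 1), |((m : ℝ) * (q' * g.coeff i - b i)) *
        ((-(a : ℝ)) ^ (i - j) * (i.choose j : ℝ))| * (N : ℝ) ^ j ≤
        w * (2 * w) ^ C * 2 ^ D * w ^ D := by
      intro i hi
      rw [mem_range] at hi
      by_cases hij : i < j
      · rw [Nat.choose_eq_zero_of_lt hij]
        simp only [Nat.cast_zero, mul_zero, abs_zero, zero_mul]
        positivity
      · push Not at hij
        have hi1 : 1 ≤ i := hj1.trans hij
        have hiD : i ≤ D := by omega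
        have e1 := hb i hi1 hiD
        have e2 : |(-(a : ℝ)) ^ (i - j)| ≤ (N : ℝ) ^ (i - j) := by
          rw [abs_pow, abs_neg, Nat.abs_cast]
          exact pow_le_pow_left₀ (Nat.cast_nonneg a) haN _
        have e3 : (i.choose j : ℝ) ≤ 2 ^ D := by
          have : i.choose j ≤ 2 ^ D := (Nat.choose_le_two_pow i j).trans
            (Nat.pow_le_pow_right (by norm_num) hiD)
          exact_mod_cast this
        rw [abs_mul, abs_mul, abs_mul, Nat.abs_cast, Nat.abs_cast]
        have e4 : (1 : ℝ) / (L : ℝ) ^ i ≤ w ^ i / (N : ℝ) ^ i := by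
          rw [div_le_div_iff₀ (by positivity) (by positivity), one_mul, mul_comm (w ^ i), ← mul_pow]
          exact pow_le_pow_left₀ hNpos.le hNL.le i
        have e5 : (2 * w) ^ C / (L : ℝ) ^ i ≤ (2 * w) ^ C * (w ^ i / (N : ℝ) ^ i) := by
          rw [div_eq_mul_one_div]
          exact mul_le_mul_of_nonneg_left e4 (by positivity)
        calc (m : ℝ) * |q' * g.coeff i - b i| * (|(-(a : ℝ)) ^ (i - j)| * (i.choose j : ℝ)) *
              (N : ℝ) ^ j
            ≤ w * ((2 * w) ^ C * (w ^ i / (N : ℝ) ^ i)) * ((N : ℝ) ^ (i - j) * 2 ^ D) *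
              (N : ℝ) ^ j := by
              gcongr
              exact e1.trans e5
          _ = w * (2 * w) ^ C * 2 ^ D * w ^ i := by
              have hNi : (N : ℝ) ^ (i - j) * (N : ℝ) ^ j = (N : ℝ) ^ i := by
                rw [← pow_add, Nat.sub_add_cancel hij]
              have hNi0 : (N : ℝ) ^ i ≠ 0 := by positivity
              calc w * ((2 * w) ^ C * (w ^ i / (N : ℝ) ^ i)) * ((N : ℝ) ^ (i - j) * 2 ^ D) *
                    (N : ℝ) ^ j = w * (2 * w) ^ C * 2 ^ D * w ^ i *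
                      (((N : ℝ) ^ (i - j) * (N : ℝ) ^ j) / (N : ℝ) ^ i) := by ring
                _ = w * (2 * w) ^ C * 2 ^ D * w ^ i := by
                    rw [hNi, div_self hNi0, mul_one]
          _ ≤ w * (2 * w) ^ C * 2 ^ D * w ^ D := by
              apply mul_le_mul_of_nonneg_left _ (by positivity)
              exact pow_le_pow_right₀ hw1 hiD
    calc |∑ i ∈ range (D + 1), ((m : ℝ) * (q' * g.coeff i - b i)) *
          ((-(a : ℝ)) ^ (i - j) * (i.choose j : ℝ))| * (N : ℝ) ^ j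
        ≤ (∑ i ∈ range (D + 1), |((m : ℝ) * (q' * g.coeff i - b i)) *
          ((-(a : ℝ)) ^ (i - j) * (i.choose j : ℝ))|) * (N : ℝ) ^ j :=
          mul_le_mul_of_nonneg_right (Finset.abs_sum_le_sum_abs _ _) (by positivity)
      _ = ∑ i ∈ range (D + 1), |((m : ℝ) * (q' * g.coeff i - b i)) *
          ((-(a : ℝ)) ^ (i - j) * (i.choose j : ℝ))| * (N : ℝ) ^ j := by rw [Finset.sum_mul]
      _ ≤ ∑ i ∈ range (D + 1), w * (2 * w) ^ C * 2 ^ D * w ^ D := Finset.sum_le_sum h3
      _ = C₁ * w ^ E := by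
          rw [Finset.sum_const, card_range, nsmul_eq_mul, hC₁, hE]
          push_cast
          rw [mul_pow, pow_add, pow_add, pow_add, pow_one]
          ring
  set F' : ℤ[X] := ∑ j ∈ Icc 1 D, monomial j (B j) with hF'
  have hcoef : ∀ j, F'.coeff j = if j ∈ Icc 1 D then B j else 0 := by
    intro j
    rw [hF', finsetSum_coeff]
    simp only [coeff_monomial]
    rw [Finset.sum_ite_eq']
  have hqh : (0 : ℝ) < (q' : ℝ) * h := by positivity
  have hWpos : 0 < w ^ E := by positivity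
  have happ : App f N (q' * h) F' (C₁ * w ^ E / (q' * h)) := by
    refine ⟨Nat.one_le_iff_ne_zero.2 (Nat.mul_ne_zero (by omega) (by omega)), by positivity, ?_, ?_,
      ?_⟩
    · rw [hf, hF']
      apply natDegree_sum_le_of_forall_le
      intro j hj
      exact (natDegree_monomial_le _).trans (mem_Icc.1 hj).2
    · rw [hcoef]
      simp
    · intro j hj
      rw [hcoef]
      by_cases hjD : j ≤ D
      · rw [if_pos (mem_Icc.2 ⟨hj, hjD⟩)]
        have h1 := hest j hj hjD
        rw [le_div_iff₀ hqh]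
        have h2 : |f.coeff j - (B j : ℝ) / ((q' * h : ℕ) : ℝ)| * (N : ℝ) ^ j * (q' * h) =
            |(q' * h : ℝ) * f.coeff j - B j| * (N : ℝ) ^ j := by
          have h3 : (q' * h : ℝ) * f.coeff j - B j =
              (q' * h : ℝ) * (f.coeff j - (B j : ℝ) / ((q' * h : ℕ) : ℝ)) := by
            push_cast
            field_simp
          rw [h3, abs_mul, abs_of_pos hqh]
          ring
        rw [h2]
        exact h1
      · rw [if_neg (fun hh => hjD (mem_Icc.1 hh).2),
          coeff_eq_zero_of_natDegree_lt (by rw [hf]; omega)]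
        simp only [Int.cast_zero, zero_div, sub_zero, abs_zero, zero_mul]
        positivity
  have hmin := hDat.min (q' * h) F' _ happ
  have h1 : ((q' * h : ℕ) : ℝ) * (1 + C₁ * w ^ E / (q' * h)) = q' * h + C₁ * w ^ E := by
    push_cast
    field_simp
  rw [h1] at hmin
  have h2 : (q' : ℝ) * h ≤ C₁ * w ^ E := by
    calc (q' : ℝ) * h ≤ (2 * w) ^ C * w := by gcongr
      _ = 2 ^ C * w ^ (C + 1) := by rw [mul_pow, pow_succ]; ring
      _ ≤ C₁ * w ^ E := by
        apply mul_le_mul _ _ (by positivity) (by positivity)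
        · rw [hC₁]
          have h3 : (2 : ℝ) ^ C ≤ 2 ^ (C + D) := pow_le_pow_right₀ (by norm_num) (by omega)
          have h4 : (0 : ℝ) ≤ D := Nat.cast_nonneg D
          nlinarith [pow_pos (by norm_num : (0 : ℝ) < 2) (C + D)]
        · exact pow_le_pow_right₀ hw1 (by omega)
  have h3 : w ^ E ≤ 4 * C₁ := by
    have h4 : (w ^ E) * (w ^ E) ≤ (4 * C₁) * w ^ E := by
      calc (w ^ E) * (w ^ E) = M := by rw [← sq, hwE]
        _ ≤ 2 * (q' * h + C₁ * w ^ E) := hmin
        _ ≤ (4 * C₁) * w ^ E := by linarith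
    exact le_of_mul_le_mul_right h4 hWpos
  have h5 : M ≤ 16 * C₁ ^ 2 := by
    rw [← hwE]
    calc (w ^ E) ^ 2 ≤ (4 * C₁) ^ 2 := pow_le_pow_left₀ hWpos.le h3 2
      _ = 16 * C₁ ^ 2 := by ring
  linarith

end Pool.Agent.Helper51.EP.EXPS
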